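import Pool.Agent.Run7.h928.PiAvg

/-!
# The average `π`-adic complexity of finite sequences is `n / 2 + O(1)`

`R = ℤ[π]` is an integral domain which is free over `ℤ` with basis `1, π, ..., π ^ (d - 1)`, where
`π ^ 2 = -N` (case (i), `d = 2`) or `π ^ d = N` (case (ii)).  The average `E_n^fin` of the `π`-adic
complexity over the `N ^ n` digit sequences of length `n` is `n / 2 + O(1)`, and the implied
constant depends on `d` only.

Proof.  The pairs `(f, g)` with `f ≡ g α mod π ^ n` form a lattice of index `M = N ^ n` in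
`R² ≅ ℤ ^ (2 d)`.  Let `ℓ(α)` be its first minimum for the sup norm.  For fixed `g ≠ 0` with
`‖g‖ ≤ B` the number of pairs `(α, f)` with `‖f‖ ≤ B`, `f ≡ g α`, is at most `(E B) ^ d`: the ideal
`(g, π ^ n)` has as many annihilators as cosets, each coset has a representative of norm `O(‖g‖)`,
and translates can be packed in a box.  So at most `(E B) ^ (2 d)` classes have `ℓ(α) ≤ B`, and the
mean of `log ℓ(α)` is at least `log M / (2 d) - O(1)`.  This gives the lower bound.  For the upper
bound, consider the finite group `G = R² / {(f, g) : f ≡ g α mod π ^ n, π ∣ g}` of order `N M`.  The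
box of radius about `ℓ / 2` injects into `G`, and in a finite abelian group every element is a sum
of at most `3 |G| / |S|` elements of a symmetric generating set `S`; hence some `(f, g)` in the
lattice with `g ≡ 1 mod π` has norm `O(M / ℓ ^ (2 d - 1))`.
-/

set_option autoImplicit false

universe u

namespace Pool.Agent.Results.MP_cc6759_lc.AverageFinitePi

open Run7.h928.PiAdic

/-- `E_n^fin = n / 2 + O(1)` in case (i) (with an absolute constant) and in case (ii) (with a
constant which depends on `d` only). -/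
theorem result :
    (∃ C : ℝ, ∀ N : ℕ, 2 ≤ N → ∀ (R : Type u) [CommRing R] [IsDomain R] (π : R)
      (b : Module.Basis (Fin 2) ℤ R), (∀ i, b i = π ^ (i : ℕ)) → π ^ 2 = -(N : R) →
      ∀ n : ℕ, |averageFinite N (sizeI N b) π n - (n : ℝ) / 2| ≤ C) ∧
    (∀ d : ℕ, 1 ≤ d → ∃ C : ℝ, ∀ N : ℕ, 2 ≤ N → ∀ (R : Type u) [CommRing R] [IsDomain R] (π : R)
      (b : Module.Basis (Fin d) ℤ R), (∀ i, b i = π ^ (i : ℕ)) → π ^ d = (N : R) →
      ∀ n : ℕ, |averageFinite N (sizeII N d b) π n - (n : ℝ) / 2| ≤ C) := by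
  constructor
  · refine ⟨2 + ((2 : ℕ) : ℝ) * ((2 * ((2 : ℕ) : ℝ) + 3) + (2 * ((2 : ℕ) : ℝ) - 1) *
      (1 + Real.logb 2 (4 * ((2 : ℕ) : ℝ) ^ 2 + 6))), ?_⟩
    intro N hN R _ _ π b hb hπ n
    have h : IsPowerBasis N π b := ⟨hN, by norm_num, hb, Or.inr hπ⟩
    have h1 := average_general h (by norm_num) (isSizeI h) n
    have h2 := error_le N 2 hN (by norm_num)
    exact h1.trans (add_le_add le_rfl h2)
  · intro d hd
    refine ⟨(d : ℝ) + d * ((2 * d + 3) + (2 * d - 1) *
      (1 + Real.logb 2 (4 * d ^ 2 + 6))), ?_⟩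
    intro N hN R _ _ π b hb hπ n
    have h : IsPowerBasis N π b := ⟨hN, hd, hb, Or.inl hπ⟩
    have h1 := average_general h (by positivity) (isSizeII h) n
    have h2 := error_le N d hN hd
    exact h1.trans (add_le_add le_rfl h2)

end Pool.Agent.Results.MP_cc6759_lc.AverageFinitePi
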